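import Mathlib
import Pool.Agent.Helper934.TcDense

/-!
For `d = 3` the module `V = S^3(k^3)` of `SL_3/μ_3` and its twist by `g ↦ (g^T)⁻¹` are
birationally equivariantly isomorphic.
-/

open Matrix

namespace Pool.Agent.Results.MP_107daa_ag.TernaryCubics

/-- The group `G = SL_d(k)/μ_d(k)`: the quotient of `SL_d(k)` by its centre, which consists of
the scalar matrices `ζ • 1` with `ζ ^ d = 1`. -/
abbrev Grp (k : Type*) [Field k] (d : ℕ) := ProjectiveSpecialLinearGroup (Fin d) k

/-- The `d`-th symmetric power `V = S^d(k^d)`: homogeneous polynomials of degree `d` in the basis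
vectors `X_0, …, X_{d-1}` of `k^d`. -/
abbrev SymPow (k : Type*) [Field k] (d : ℕ) := MvPolynomial.homogeneousSubmodule (Fin d) k d

/-- The ring homomorphism induced by a matrix `g` acting on `k^d`: it sends the basis vector
`X_i` to `g X_i = ∑ j, g j i X_j`. -/
noncomputable def subst {k : Type*} [Field k] {d : ℕ} (g : Matrix (Fin d) (Fin d) k) :
    MvPolynomial (Fin d) k →ₐ[k] MvPolynomial (Fin d) k :=
  MvPolynomial.aeval fun i => ∑ j, MvPolynomial.C (g j i) * MvPolynomial.X j

section
variable {k : Type*} [Field k] {d : ℕ}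

lemma subst_mem (g : Matrix (Fin d) (Fin d) k) (f : SymPow k d) :
    subst g (f : MvPolynomial (Fin d) k) ∈ MvPolynomial.homogeneousSubmodule (Fin d) k d := by
  rw [MvPolynomial.mem_homogeneousSubmodule]
  have hf := (MvPolynomial.mem_homogeneousSubmodule d (f : MvPolynomial (Fin d) k)).mp f.2
  have h := hf.aeval (fun i => ∑ j, MvPolynomial.C (g j i) * MvPolynomial.X j)
    (n := 1) (fun i => ?_)
  · rw [one_mul] at h
    exact h
  · refine MvPolynomial.IsHomogeneous.sum _ _ _ fun j _ => ?_
    have := (MvPolynomial.isHomogeneous_C (Fin d) (g j i)).mul (MvPolynomial.isHomogeneous_X k j)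
    simpa using this

lemma subst_one : (subst (1 : Matrix (Fin d) (Fin d) k)) = AlgHom.id k _ := by
  apply MvPolynomial.algHom_ext
  intro i
  simp [subst, Matrix.one_apply]

lemma subst_mul (g h : Matrix (Fin d) (Fin d) k) : subst (g * h) = (subst g).comp (subst h) := by
  apply MvPolynomial.algHom_ext
  intro i
  simp only [subst, MvPolynomial.aeval_X, AlgHom.comp_apply, map_sum, map_mul,
    MvPolynomial.aeval_C, Matrix.mul_apply, MvPolynomial.algebraMap_eq, Finset.sum_mul,
    Finset.mul_sum]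
  rw [Finset.sum_comm]
  refine Finset.sum_congr rfl fun j _ => Finset.sum_congr rfl fun l _ => ?_
  ring

/-- The action of a matrix on `S^d(k^d)`. -/
noncomputable def matMap (g : Matrix (Fin d) (Fin d) k) : SymPow k d →ₗ[k] SymPow k d where
  toFun f := ⟨subst g f, subst_mem g f⟩
  map_add' f h := by
    apply Subtype.ext
    simp
  map_smul' c f := by
    apply Subtype.ext
    simp

/-- The standard action of `SL_d(k)` on `S^d(k^d)`. -/
noncomputable def slRep (k : Type*) [Field k] (d : ℕ) :
    Representation k (Matrix.SpecialLinearGroup (Fin d) k) (SymPow k d) where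
  toFun g := matMap (g : Matrix (Fin d) (Fin d) k)
  map_one' := by
    apply LinearMap.ext
    intro f
    apply Subtype.ext
    show subst ((1 : Matrix.SpecialLinearGroup (Fin d) k) : Matrix (Fin d) (Fin d) k) f.1 = f.1
    rw [Matrix.SpecialLinearGroup.coe_one, subst_one]
    rfl
  map_mul' g h := by
    apply LinearMap.ext
    intro f
    apply Subtype.ext
    show subst ((g * h : Matrix.SpecialLinearGroup (Fin d) k) : Matrix (Fin d) (Fin d) k) f.1
      = subst (g : Matrix (Fin d) (Fin d) k) (subst (h : Matrix (Fin d) (Fin d) k) f.1)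
    rw [Matrix.SpecialLinearGroup.coe_mul, subst_mul]
    rfl

lemma slRep_apply (g : Matrix.SpecialLinearGroup (Fin d) k) (f : SymPow k d) :
    (slRep k d g f : MvPolynomial (Fin d) k) = subst (g : Matrix (Fin d) (Fin d) k) f := rfl

/-- The centre of `SL_d(k)` acts trivially on `S^d(k^d)`. -/
lemma center_le_ker :
    Subgroup.center (Matrix.SpecialLinearGroup (Fin d) k) ≤ (slRep k d).ker := by
  intro g hg
  obtain ⟨r, hr, hrg⟩ := Matrix.SpecialLinearGroup.mem_center_iff.mp hg
  rw [MonoidHom.mem_ker]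
  apply LinearMap.ext
  intro f
  apply Subtype.ext
  rw [slRep_apply, ← hrg, Module.End.one_apply]
  have hf := (MvPolynomial.mem_homogeneousSubmodule d (f : MvPolynomial (Fin d) k)).mp f.2
  rw [Fintype.card_fin] at hr
  have h1 : ∀ i, ∑ j, MvPolynomial.C (scalar (Fin d) r j i) * MvPolynomial.X j
      = (MvPolynomial.C r * MvPolynomial.X i : MvPolynomial (Fin d) k) := by
    intro i
    rw [Finset.sum_eq_single i]
    · simp
    · intro j _ hj
      simp [Matrix.diagonal_apply_ne _ hj]
    · simp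
  rw [subst]
  simp only [h1]
  conv_lhs => rw [MvPolynomial.as_sum (f : MvPolynomial (Fin d) k)]
  conv_rhs => rw [MvPolynomial.as_sum (f : MvPolynomial (Fin d) k)]
  rw [map_sum]
  refine Finset.sum_congr rfl fun s hs => ?_
  have hdeg : s.degree = d := by
    by_contra h
    exact (MvPolynomial.mem_support_iff.mp hs) (hf.coeff_eq_zero h)
  rw [MvPolynomial.aeval_monomial, MvPolynomial.algebraMap_eq, MvPolynomial.monomial_eq]
  congr 1
  rw [Finsupp.prod_fintype _ _ (by simp), Finsupp.prod_fintype _ _ (by simp)]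
  simp only [mul_pow, Finset.prod_mul_distrib, Finset.prod_pow_eq_pow_sum]
  have h2 : ∑ i, s i = d := (Finsupp.degree_eq_sum s).symm.trans hdeg
  rw [h2, ← map_pow, hr, map_one, one_mul]

/-- The action of `G = SL_d(k)/μ_d(k)` on `V = S^d(k^d)`. -/
noncomputable def rep (k : Type*) [Field k] (d : ℕ) :
    Representation k (Grp k d) (SymPow k d) :=
  QuotientGroup.lift _ (slRep k d) center_le_ker

/-- The automorphism `g ↦ (gᵀ)⁻¹` of `SL_d(k)`. -/
noncomputable def slSigma (k : Type*) [Field k] (d : ℕ) :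
    Matrix.SpecialLinearGroup (Fin d) k →* Matrix.SpecialLinearGroup (Fin d) k where
  toFun g := (g.transpose)⁻¹
  map_one' := by
    have : (1 : Matrix.SpecialLinearGroup (Fin d) k).transpose = 1 := by
      apply Subtype.ext
      simp
    rw [this, inv_one]
  map_mul' g h := by
    have : (g * h).transpose = h.transpose * g.transpose := by
      apply Subtype.ext
      simp [Matrix.transpose_mul]
    rw [this, _root_.mul_inv_rev]

lemma center_le_comap : Subgroup.center (Matrix.SpecialLinearGroup (Fin d) k) ≤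
    (Subgroup.center (Matrix.SpecialLinearGroup (Fin d) k)).comap (slSigma k d) := by
  intro g hg
  obtain ⟨r, hr, hrg⟩ := Matrix.SpecialLinearGroup.mem_center_iff.mp hg
  rw [Subgroup.mem_comap]
  apply Subgroup.inv_mem
  rw [Matrix.SpecialLinearGroup.mem_center_iff]
  refine ⟨r, hr, ?_⟩
  rw [Matrix.SpecialLinearGroup.coe_transpose, ← hrg]
  simp

/-- The automorphism `σ` of `G = SL_d(k)/μ_d(k)` induced by `g ↦ (gᵀ)⁻¹`. -/
noncomputable def sigma (k : Type*) [Field k] (d : ℕ) : Grp k d →* Grp k d :=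
  QuotientGroup.map _ _ (slSigma k d) center_le_comap

/-- The twisted module `^σ V`: the same vector space, on which `h ∈ G` acts as `σ(h)` acts
on `V`. -/
noncomputable def twistedRep (k : Type*) [Field k] (d : ℕ) :
    Representation k (Grp k d) (SymPow k d) :=
  (rep k d).comp (sigma k d)

end

/-! ### Rational maps between vector spaces -/

/-- The algebra of polynomial functions on a vector space `V`: the algebra of functions `V → k`
generated by the linear functionals. -/
def polyFun (k V : Type*) [Field k] [AddCommGroup V] [Module k V] : Subalgebra k (V → k) :=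
  Algebra.adjoin k {f | ∃ l : V →ₗ[k] k, f = l}

/-- A rational map `V ⇢ W` between vector spaces, `v ↦ (den v)⁻¹ • num v`, given by a polynomial
map `num : V → W` and a nonzero polynomial function `den` on `V`. -/
structure RatMap (k V W : Type*) [Field k] [AddCommGroup V] [Module k V] [AddCommGroup W]
    [Module k W] where
  /-- numerator -/
  num : V → W
  /-- denominator -/
  den : V → k
  num_poly : ∀ l : W →ₗ[k] k, (fun v => l (num v)) ∈ polyFun k V
  den_poly : den ∈ polyFun k V
  den_ne : ∃ v, den v ≠ 0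

/-- The value of a rational map at a point where its denominator does not vanish. -/
def RatMap.val {k V W : Type*} [Field k] [AddCommGroup V] [Module k V] [AddCommGroup W]
    [Module k W] (φ : RatMap k V W) (v : V) : W := (φ.den v)⁻¹ • φ.num v

/-- Two `G`-modules `V`, `W` are birationally `G`-isomorphic: there are rational maps
`φ : V ⇢ W` and `ψ : W ⇢ V`, both composites of which are defined somewhere, which are inverse to
each other wherever the composites are defined, and `φ` is `G`-equivariant wherever both sides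
are defined. -/
def BirationallyGIso {k G V W : Type*} [Field k] [Group G] [AddCommGroup V] [Module k V]
    [AddCommGroup W] [Module k W] (ρ : Representation k G V) (τ : Representation k G W) : Prop :=
  ∃ (φ : RatMap k V W) (ψ : RatMap k W V),
    (∃ v, φ.den v ≠ 0 ∧ ψ.den (φ.val v) ≠ 0) ∧
    (∃ w, ψ.den w ≠ 0 ∧ φ.den (ψ.val w) ≠ 0) ∧
    (∀ v, φ.den v ≠ 0 → ψ.den (φ.val v) ≠ 0 → ψ.val (φ.val v) = v) ∧
    (∀ w, ψ.den w ≠ 0 → φ.den (ψ.val w) ≠ 0 → φ.val (ψ.val w) = w) ∧
    (∀ (g : G) (v : V), φ.den v ≠ 0 → φ.den (ρ g v) ≠ 0 → φ.val (ρ g v) = τ g (φ.val v))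

/-! ### Cubic forms and tensors -/

open Pool.Agent.Helper934.Tc

section
variable {k : Type*} [Field k] [CharZero k]

/-- The monomial `X_i X_j X_l` as an element of `S^3(k^3)`. -/
noncomputable def mon (k : Type*) [Field k] (i j l : Fin 3) : SymPow k 3 :=
  ⟨MvPolynomial.X i * MvPolynomial.X j * MvPolynomial.X l, by
    rw [MvPolynomial.mem_homogeneousSubmodule]
    exact ((MvPolynomial.isHomogeneous_X k i).mul (MvPolynomial.isHomogeneous_X k j)).mul
      (MvPolynomial.isHomogeneous_X k l)⟩

/-- The cubic form of a tensor. -/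
noncomputable def toForm (t : Ten k) : SymPow k 3 := ∑ i, ∑ j, ∑ l, t i j l • mon k i j l

/-- The tensor of a cubic form. -/
noncomputable def ten (f : SymPow k 3) : Ten k := fun i j l =>
  (1 / 6 : k) * MvPolynomial.coeff 0 (MvPolynomial.pderiv i (MvPolynomial.pderiv j
    (MvPolynomial.pderiv l (f : MvPolynomial (Fin 3) k))))

/-- The components of the tensor are linear functionals. -/
noncomputable def tenL (i j l : Fin 3) : SymPow k 3 →ₗ[k] k where
  toFun f := ten f i j l
  map_add' f h := by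
    simp only [ten, Submodule.coe_add, map_add, MvPolynomial.coeff_add]
    ring
  map_smul' c f := by
    simp only [ten, Submodule.coe_smul, Derivation.map_smul, MvPolynomial.coeff_smul, smul_eq_mul,
      RingHom.id_apply]
    ring

lemma pderiv_comm' {k : Type*} [CommRing k] (i j : Fin 3) (f : MvPolynomial (Fin 3) k) :
    MvPolynomial.pderiv i (MvPolynomial.pderiv j f)
      = MvPolynomial.pderiv j (MvPolynomial.pderiv i f) := by
  induction f using MvPolynomial.induction_on with
  | C a => simp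
  | add p q hp hq => simp only [map_add, hp, hq]
  | mul_X p n hp =>
    simp only [Derivation.leibniz, smul_eq_mul, map_add, hp, MvPolynomial.pderiv_X]
    have h : ∀ a b : Fin 3, MvPolynomial.pderiv a
        (Pi.single (M := fun _ => MvPolynomial (Fin 3) k) b 1 n) = 0 := by
      intro a b
      by_cases hb : n = b
      · subst hb; simp
      · rw [Pi.single_eq_of_ne hb]; simp
    simp only [h]
    ring

lemma ten_sym (f : SymPow k 3) : IsSym (ten f) := by
  intro i j l
  simp only [ten]
  constructor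
  · rw [pderiv_comm' i j]
  · rw [pderiv_comm' j l]

lemma toForm_coe (t : Ten k) : (toForm t : MvPolynomial (Fin 3) k)
    = ∑ i, ∑ j, ∑ l, MvPolynomial.C (t i j l) *
      (MvPolynomial.X i * MvPolynomial.X j * MvPolynomial.X l) := by
  simp only [toForm, AddSubmonoidClass.coe_finsetSum, Submodule.coe_smul, mon,
    MvPolynomial.smul_eq_C_mul]

lemma toForm_ten (f : SymPow k 3) : toForm (ten f) = f := by
  apply Subtype.ext
  have hf := (MvPolynomial.mem_homogeneousSubmodule 3 (f : MvPolynomial (Fin 3) k)).mp f.2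
  rw [toForm_coe]
  simp only [ten]
  generalize (f : MvPolynomial (Fin 3) k) = F at hf
  have h1 := hf.sum_X_mul_pderiv
  have h2 := fun l => (hf.pderiv (i := l)).sum_X_mul_pderiv
  have h3 := fun l j => ((hf.pderiv (i := l)).pderiv (i := j)).sum_X_mul_pderiv
  have h4 : ∀ i j l, MvPolynomial.C (MvPolynomial.coeff 0 (MvPolynomial.pderiv i
      (MvPolynomial.pderiv j (MvPolynomial.pderiv l F))))
      = MvPolynomial.pderiv i (MvPolynomial.pderiv j (MvPolynomial.pderiv l F)) := by
    intro i j l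
    have h5 := ((hf.pderiv (i := l)).pderiv (i := j)).pderiv (i := i)
    exact (MvPolynomial.totalDegree_eq_zero_iff_eq_C.mp (Nat.le_zero.mp h5.totalDegree_le)).symm
  simp only [nsmul_eq_mul, Fin.sum_univ_three] at h1 h2 h3
  norm_num at h1 h2 h3
  have h6 : (6 : MvPolynomial (Fin 3) k) * F = ∑ i, ∑ j, ∑ l,
      MvPolynomial.pderiv i (MvPolynomial.pderiv j (MvPolynomial.pderiv l F)) *
      (MvPolynomial.X i * MvPolynomial.X j * MvPolynomial.X l) := by
    simp only [Fin.sum_univ_three]
    linear_combination (-2 : MvPolynomial (Fin 3) k) * h1 - (MvPolynomial.X 0 * h2 0 +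
      MvPolynomial.X 1 * h2 1 + MvPolynomial.X 2 * h2 2)
      - (MvPolynomial.X 0 * MvPolynomial.X 0 * h3 0 0 + MvPolynomial.X 0 * MvPolynomial.X 1 * h3 0 1
        + MvPolynomial.X 0 * MvPolynomial.X 2 * h3 0 2 + MvPolynomial.X 1 * MvPolynomial.X 0 * h3 1 0
        + MvPolynomial.X 1 * MvPolynomial.X 1 * h3 1 1 + MvPolynomial.X 1 * MvPolynomial.X 2 * h3 1 2
        + MvPolynomial.X 2 * MvPolynomial.X 0 * h3 2 0 + MvPolynomial.X 2 * MvPolynomial.X 1 * h3 2 1
        + MvPolynomial.X 2 * MvPolynomial.X 2 * h3 2 2)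
  have h8 : ∑ i, ∑ j, ∑ l, MvPolynomial.C (1 / 6 * MvPolynomial.coeff 0 (MvPolynomial.pderiv i
      (MvPolynomial.pderiv j (MvPolynomial.pderiv l F)))) *
      (MvPolynomial.X i * MvPolynomial.X j * MvPolynomial.X l)
      = MvPolynomial.C (1 / 6 : k) * ∑ i, ∑ j, ∑ l,
      MvPolynomial.pderiv i (MvPolynomial.pderiv j (MvPolynomial.pderiv l F)) *
      (MvPolynomial.X i * MvPolynomial.X j * MvPolynomial.X l) := by
    simp only [Finset.mul_sum, map_mul, h4, mul_assoc]
  have h7 : (MvPolynomial.C (1 / 6 : k) : MvPolynomial (Fin 3) k) * 6 = 1 := by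
    have : (6 : MvPolynomial (Fin 3) k) = MvPolynomial.C (6 : k) :=
      (map_ofNat (MvPolynomial.C : k →+* MvPolynomial (Fin 3) k) 6).symm
    rw [this, ← map_mul]
    norm_num
  rw [h8, ← h6, ← mul_assoc, h7, one_mul]

lemma pd1 {k : Type*} [CommRing k] (v : Fin 3 → k) (i : Fin 3) :
    MvPolynomial.pderiv i (∑ c, MvPolynomial.C (v c) * MvPolynomial.X c)
      = MvPolynomial.C (v i) := by
  fin_cases i <;> simp [Fin.sum_univ_three, Derivation.leibniz, MvPolynomial.pderiv_X]

lemma pd2 {k : Type*} [CommRing k] (m : Fin 3 → Fin 3 → k) (i : Fin 3) :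
    MvPolynomial.pderiv i (∑ b, ∑ c, MvPolynomial.C (m b c) *
      (MvPolynomial.X b * MvPolynomial.X c))
      = ∑ c, MvPolynomial.C (m i c + m c i) * MvPolynomial.X c := by
  fin_cases i <;> simp [Fin.sum_univ_three, Derivation.leibniz, MvPolynomial.pderiv_X] <;> ring

lemma pd3 {k : Type*} [CommRing k] (m : Fin 3 → Fin 3 → Fin 3 → k) (i : Fin 3) :
    MvPolynomial.pderiv i (∑ a, ∑ b, ∑ c, MvPolynomial.C (m a b c) *
      (MvPolynomial.X a * MvPolynomial.X b * MvPolynomial.X c))
      = ∑ b, ∑ c, MvPolynomial.C (m i b c + m b i c + m b c i) *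
        (MvPolynomial.X b * MvPolynomial.X c) := by
  fin_cases i <;> simp [Fin.sum_univ_three, Derivation.leibniz, MvPolynomial.pderiv_X] <;> ring

lemma ten_toForm (t : Ten k) (ht : IsSym t) : ten (toForm t) = t := by
  funext i
  ext j l
  have h : (toForm t : MvPolynomial (Fin 3) k) = ∑ a, ∑ b, ∑ c, MvPolynomial.C
      ((fun a b c => t a b c : Fin 3 → Fin 3 → Fin 3 → k) a b c) *
      (MvPolynomial.X a * MvPolynomial.X b * MvPolynomial.X c) := toForm_coe t
  show (1 / 6 : k) * MvPolynomial.coeff 0 (MvPolynomial.pderiv i (MvPolynomial.pderiv j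
    (MvPolynomial.pderiv l (toForm t : MvPolynomial (Fin 3) k)))) = t i j l
  rw [h, pd3 (fun a b c => t a b c) l, pd2 (fun b c => t l b c + t b l c + t b c l) j,
    pd1 (fun c => (t l j c + t j l c + t j c l) + (t l c j + t c l j + t c j l)) i,
    MvPolynomial.coeff_C, if_pos rfl]
  have e1 : t l j i = t j l i := (ht l j i).1
  have e2 : t j l i = t j i l := (ht j l i).2
  have e3 : t j i l = t i j l := (ht j i l).1
  have e4 : t l i j = t i l j := (ht l i j).1
  have e5 : t i l j = t i j l := (ht i l j).2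
  rw [e4, e5, e1, e2, e3]
  ring

lemma matMap_toForm (g : Matrix (Fin 3) (Fin 3) k) (t : Ten k) :
    matMap g (toForm t) = toForm (act g t) := by
  apply Subtype.ext
  show subst g (toForm t : MvPolynomial (Fin 3) k) = _
  rw [toForm_coe, toForm_coe]
  simp only [act_apply, map_sum, map_mul, subst, MvPolynomial.aeval_X, MvPolynomial.aeval_C,
    MvPolynomial.algebraMap_eq]
  simp only [Fin.sum_univ_three]
  ring

lemma rep_mk (g : Matrix.SpecialLinearGroup (Fin 3) k) (f : SymPow k 3) :
    rep k 3 (QuotientGroup.mk g) f = matMap (g : Matrix (Fin 3) (Fin 3) k) f := rfl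

lemma twistedRep_mk (g : Matrix.SpecialLinearGroup (Fin 3) k) (f : SymPow k 3) :
    twistedRep k 3 (QuotientGroup.mk g) f
      = matMap (((g.transpose)⁻¹ : Matrix.SpecialLinearGroup (Fin 3) k) :
        Matrix (Fin 3) (Fin 3) k) f := rfl

lemma ten_matMap (g : Matrix (Fin 3) (Fin 3) k) (f : SymPow k 3) :
    ten (matMap g f) = act g (ten f) := by
  conv_lhs => rw [← toForm_ten f]
  rw [matMap_toForm, ten_toForm _ (sym_act _ _ (ten_sym f))]

lemma toForm_smul (c : k) (t : Ten k) : toForm (c • t) = c • toForm t := by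
  simp only [toForm, Pi.smul_apply, Matrix.smul_apply, smul_eq_mul, Finset.smul_sum, smul_smul]

/-! ### Polynomial functions -/

lemma evalTen_mem (P : MvPolynomial Ix k) :
    (fun f : SymPow k 3 => MvPolynomial.eval (unc (ten f)) P) ∈ polyFun k (SymPow k 3) := by
  induction P using MvPolynomial.induction_on with
  | C a =>
    simp only [MvPolynomial.eval_C]
    exact (polyFun k (SymPow k 3)).algebraMap_mem a
  | add p q hp hq =>
    simp only [map_add]
    exact (polyFun k (SymPow k 3)).add_mem hp hq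
  | mul_X p n hp =>
    simp only [map_mul, MvPolynomial.eval_X]
    exact (polyFun k (SymPow k 3)).mul_mem hp
      (Algebra.subset_adjoin ⟨tenL n.1 n.2.1 n.2.2, rfl⟩)

lemma Nt_mem (i j l : Fin 3) :
    (fun f : SymPow k 3 => Nt (ten f) i j l) ∈ polyFun k (SymPow k 3) := by
  have h := evalTen_mem (k := k) (Nt (tU k) i j l)
  have h2 : (fun f : SymPow k 3 => MvPolynomial.eval (unc (ten f)) (Nt (tU k) i j l))
      = fun f : SymPow k 3 => Nt (ten f) i j l := by
    funext f
    rw [← tm_apply, ← Nt_tm, tm_tU]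
  rwa [h2] at h

lemma Sv_mem : (fun f : SymPow k 3 => Sv (ten f)) ∈ polyFun k (SymPow k 3) := by
  have h := evalTen_mem (k := k) (Sv (tU k))
  have h2 : (fun f : SymPow k 3 => MvPolynomial.eval (unc (ten f)) (Sv (tU k)))
      = fun f : SymPow k 3 => Sv (ten f) := by
    funext f
    rw [← Sv_tm, tm_tU]
  rwa [h2] at h

lemma num_mem (l : SymPow k 3 →ₗ[k] k) :
    (fun f : SymPow k 3 => l (toForm (Nt (ten f)))) ∈ polyFun k (SymPow k 3) := by
  have h : (fun f : SymPow k 3 => l (toForm (Nt (ten f))))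
      = ∑ i, ∑ j, ∑ m, (fun f : SymPow k 3 => Nt (ten f) i j m) *
        algebraMap k (SymPow k 3 → k) (l (mon k i j m)) := by
    funext f
    simp only [toForm, map_sum, map_smul, smul_eq_mul, Finset.sum_apply, Pi.mul_apply,
      Pi.algebraMap_apply, Algebra.algebraMap_self, RingHom.id_apply]
  rw [h]
  exact Subalgebra.sum_mem _ fun i _ => Subalgebra.sum_mem _ fun j _ =>
    Subalgebra.sum_mem _ fun m _ => Subalgebra.mul_mem _ (Nt_mem i j m)
      (Subalgebra.algebraMap_mem _ _)

/-! ### The two rational maps -/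

lemma Sv_w_ne : Sv (w (1 : k) (-1)) ≠ 0 := by
  rw [Sv_w]
  norm_num

/-- The rational map `V ⇢ V`, `f ↦ N(f) / (c S(f)^2)`. -/
noncomputable def theMap (c : k) (hc : c ≠ 0) : RatMap k (SymPow k 3) (SymPow k 3) where
  num f := toForm (Nt (ten f))
  den f := c * Sv (ten f) ^ 2
  num_poly := num_mem
  den_poly := (polyFun k (SymPow k 3)).mul_mem ((polyFun k (SymPow k 3)).algebraMap_mem c)
    ((polyFun k (SymPow k 3)).pow_mem Sv_mem 2)
  den_ne := ⟨toForm (w 1 (-1)), by
    rw [ten_toForm _ (w_sym _ _)]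
    exact mul_ne_zero hc (pow_ne_zero 2 Sv_w_ne)⟩

lemma Nt_sym (t : Ten k) (ht : IsSym t) : IsSym (Nt t) := by
  have hev : ∀ (s : Ten k) (i j l : Fin 3),
      MvPolynomial.eval (unc s) (Nt (tU k) i j l) = Nt s i j l := by
    intro s i j l
    rw [← tm_apply, ← Nt_tm, tm_tU]
  have hD : ∀ s ∈ DS k, IsSym (Nt s) := by
    rintro s ⟨g, hg, b, hb, rfl⟩
    rw [Nt_act' g hg, Nt_w]
    exact sym_smul _ _ (sym_act _ _ (sym_smul _ _ (w_sym _ _)))
  intro i j l
  constructor
  · have h := dense (Nt (tU k) i j l - Nt (tU k) j i l) (fun s hs => by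
      rw [map_sub, hev, hev, (hD s hs i j l).1, sub_self]) t ht
    rw [map_sub, hev, hev] at h
    exact sub_eq_zero.mp h
  · have h := dense (Nt (tU k) i j l - Nt (tU k) i l j) (fun s hs => by
      rw [map_sub, hev, hev, (hD s hs i j l).2, sub_self]) t ht
    rw [map_sub, hev, hev] at h
    exact sub_eq_zero.mp h

lemma theMap_val (c : k) (hc : c ≠ 0) (f : SymPow k 3) :
    (theMap c hc).val f = (c * Sv (ten f) ^ 2)⁻¹ • toForm (Nt (ten f)) := rfl

lemma ten_val (c : k) (hc : c ≠ 0) (f : SymPow k 3) :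
    ten ((theMap c hc).val f) = (c * Sv (ten f) ^ 2)⁻¹ • Nt (ten f) := by
  rw [theMap_val, ← toForm_smul, ten_toForm _ (sym_smul _ _ (Nt_sym _ (ten_sym f)))]

lemma comp_eq (c c' : k) (hc : c ≠ 0) (hc' : c' ≠ 0) (hcc : c * c' = -1 / 2) (f : SymPow k 3)
    (h1 : (theMap c hc).den f ≠ 0) (h2 : (theMap c' hc').den ((theMap c hc).val f) ≠ 0) :
    (theMap c' hc').val ((theMap c hc).val f) = f := by
  have h1' : c * Sv (ten f) ^ 2 ≠ 0 := h1
  have h2' : c' * Sv (ten ((theMap c hc).val f)) ^ 2 ≠ 0 := h2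
  rw [theMap_val c' hc', ten_val]
  rw [ten_val, Sv_smul] at h2'
  have hS : Sv (ten f) ≠ 0 := by
    intro h
    rw [h] at h1'
    simp at h1'
  have hSN : Sv (Nt (ten f)) ≠ 0 := by
    intro h
    rw [h] at h2'
    simp at h2'
  rw [Nt_smul, Sv_smul]
  have hid := main_identity (ten f) (ten_sym f)
  have hid2 : Nt (Nt (ten f)) = ((-1 / 2 : k) * (Sv (Nt (ten f)) ^ 2 * Sv (ten f) ^ 2)) • ten f := by
    have h3 : (2 : k)⁻¹ • ((2 : k) • Nt (Nt (ten f))) = Nt (Nt (ten f)) := by
      rw [smul_smul, inv_mul_cancel₀ two_ne_zero, one_smul]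
    rw [← h3, hid, smul_smul]
    congr 1
    ring
  rw [hid2, smul_smul, toForm_smul, toForm_ten, smul_smul, ← hcc]
  have h4 : (c' * ((c * Sv (ten f) ^ 2)⁻¹ ^ 4 * Sv (Nt (ten f))) ^ 2)⁻¹ *
      ((c * Sv (ten f) ^ 2)⁻¹ ^ 9 * (c * c' * (Sv (Nt (ten f)) ^ 2 * Sv (ten f) ^ 2))) = 1 := by
    field_simp
  rw [h4, one_smul]

lemma comp_defined (c c' : k) (hc : c ≠ 0) (hc' : c' ≠ 0) :
    ∃ v, (theMap c hc).den v ≠ 0 ∧ (theMap c' hc').den ((theMap c hc).val v) ≠ 0 := by
  refine ⟨toForm (w 1 (-1)), ?_, ?_⟩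
  · show c * Sv (ten (toForm (w 1 (-1)))) ^ 2 ≠ 0
    rw [ten_toForm _ (w_sym _ _)]
    exact mul_ne_zero hc (pow_ne_zero 2 Sv_w_ne)
  · show c' * Sv (ten ((theMap c hc).val (toForm (w 1 (-1))))) ^ 2 ≠ 0
    rw [ten_val, ten_toForm _ (w_sym _ _), Sv_smul]
    have hS := Sv_w_ne (k := k)
    have hS2 : Sv (Nt (w (1 : k) (-1))) ≠ 0 := by
      rw [Nt_w, Sv_smul, Sv_w]
      norm_num
    exact mul_ne_zero hc' (pow_ne_zero 2 (mul_ne_zero (pow_ne_zero 4 (inv_ne_zero
      (mul_ne_zero hc (pow_ne_zero 2 hS)))) hS2))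

lemma equivariant (c : k) (hc : c ≠ 0) (g : Grp k 3) (v : SymPow k 3) :
    (theMap c hc).val (rep k 3 g v) = twistedRep k 3 g ((theMap c hc).val v) := by
  induction g using QuotientGroup.induction_on with
  | H g =>
    rw [rep_mk, twistedRep_mk, theMap_val, theMap_val, ten_matMap]
    have hdet : (g : Matrix (Fin 3) (Fin 3) k).det = 1 := g.2
    have hne : (g : Matrix (Fin 3) (Fin 3) k).det ≠ 0 := by rw [hdet]; exact one_ne_zero
    rw [Sv_act, Nt_act' _ hne, hdet, one_pow, one_mul, one_pow, one_smul, map_smul, matMap_toForm]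
    congr 3
    rw [Matrix.SpecialLinearGroup.coe_inv, Matrix.SpecialLinearGroup.coe_transpose]
    rw [Matrix.inv_def, hdet]
    simp [Matrix.adjugate_transpose]

end

/-- **Theorem.** Over every field `k` of characteristic zero (in particular over every
algebraically closed one) the `SL_3/μ_3`-modules `V = S^3(k^3)` and `^σ V`, where `σ` is induced
by `g ↦ (gᵀ)⁻¹`, are birationally `SL_3/μ_3`-isomorphic: the case `d = 3` of the question. -/
theorem result (k : Type*) [Field k] [CharZero k] :
    BirationallyGIso (rep k 3) (twistedRep k 3) := by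
  have h2 : (-1 / 2 : k) ≠ 0 := by norm_num
  refine ⟨theMap 1 one_ne_zero, theMap (-1 / 2) h2, comp_defined _ _ _ _, comp_defined _ _ _ _,
    ?_, ?_, ?_⟩
  · intro v h h'
    exact comp_eq 1 (-1 / 2) one_ne_zero h2 (by ring) v h h'
  · intro v h h'
    exact comp_eq (-1 / 2) 1 h2 one_ne_zero (by ring) v h h'
  · intro g v _ _
    exact equivariant 1 one_ne_zero g v

end Pool.Agent.Results.MP_107daa_ag.TernaryCubics
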